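import Mathlib

set_option autoImplicit false

namespace Pool.Agent.Results.MP_c8c065_al.Nil

open Polynomial

theorem jacInt : IsJacobsonRing ℤ := isJacobsonRing_iff_prime_eq.2 fun P hP => by
  by_cases h : P = ⊥
  · subst h
    refine le_antisymm (fun x hx => ?_) Ideal.le_jacobson
    rcases Int.isUnit_iff.1 (Ideal.mem_jacobson_bot.1 hx x) with h | h
    · exact mul_self_eq_zero.1 (by linarith)
    · nlinarith [mul_self_nonneg x]
  · have := hP.isMaximal h
    exact Ideal.jacobson_eq_self_of_isMaximal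

theorem unit {R : Type*} [Ring R] {r : R} (h : r ∈ (⊥ : Ideal R).jacobson) : IsUnit (r + 1) := by
  obtain ⟨s, hs⟩ := Ideal.exists_mul_add_sub_mem_of_mem_jacobson r h
  obtain ⟨t, ht⟩ := Ideal.exists_mul_add_sub_mem_of_mem_jacobson _ (Ideal.mul_mem_left _ (-s) h)
  rw [Ideal.mem_bot, sub_eq_zero] at hs ht
  rw [show -s * r + 1 = s by rw [← hs]; noncomm_ring] at ht
  have : t = r + 1 := by
    calc t = t * (s * (r + 1)) := by rw [hs, mul_one]
      _ = r + 1 := by rw [← mul_assoc, ht, one_mul]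
  exact ⟨⟨r + 1, s, this ▸ ht, hs⟩, rfl⟩

theorem result (R : Type*) [Ring R]
    (h : ∀ u : Rˣ, ∃ i : ℕ, 1 ≤ i ∧ IsNilpotent ((u : R) ^ i - 1)) :
    ∀ j ∈ Ring.jacobson R, IsNilpotent j := by
  intro j hj
  have := jacInt
  have hX : (X : ℤ[X]) ∈ (RingHom.ker (aeval j : ℤ[X] →ₐ[ℤ] R)).jacobson := by
    refine Ideal.mem_jacobson_iff.2 fun y => ?_
    rw [← Ideal.jacobson_bot] at hj
    obtain ⟨u, hu⟩ := unit (Ideal.mul_mem_left _ (aeval j y) hj)
    obtain ⟨i, hi, m, hm⟩ := h u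
    obtain ⟨w, hw⟩ : y * X + 1 ∣ (1 - (y * X + 1) ^ i) ^ m - 1 ^ m :=
      (Dvd.intro (-(y * X + 1) ^ (i - 1)) (by
        rw [mul_neg, ← pow_succ', Nat.sub_add_cancel hi]; ring)).trans (sub_dvd_pow_sub_pow _ _ m)
    refine ⟨-w, ?_⟩
    have e : -w * y * X + -w - 1 = -(1 - (y * X + 1) ^ i) ^ m := by
      linear_combination hw
    rw [RingHom.mem_ker, e]
    simp only [map_neg, map_pow, map_sub, map_add, map_mul, aeval_X, map_one, ← hu]
    rw [← neg_sub, neg_pow, hm, mul_zero, neg_zero]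
  rw [← Ideal.radical_eq_jacobson] at hX
  obtain ⟨n, hn⟩ := hX
  exact ⟨n, by simpa using hn⟩

end Pool.Agent.Results.MP_c8c065_al.Nil
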